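import Pool.Agent.helper5.IH.Spec

/-!
# Project ih: row HPC (directed Hamiltonian cycles by the neighbours of a vertex)
-/

set_option autoImplicit false

namespace Pool.Agent.IH

open Finset CT SYM Equiv

private theorem HPC_closed {V : Type} [Finite V] {σ : Perm V} {S : Set V}
    (hS : ∀ w ∈ S, σ w ∈ S) {u w : V} (hu : u ∈ S) (h : σ.SameCycle u w) : w ∈ S := by
  obtain ⟨n, hn⟩ := h.exists_nat_pow_eq
  clear h
  subst hn
  induction n with
  | zero => exact hu
  | succ n ih =>
    rw [pow_succ', Perm.mul_apply]
    exact hS _ ih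

private theorem HPC_cyc {V : Type} [Finite V] {σ g : Perm V} {v x y : V} (hyv : y ≠ v)
    (h1 : σ v = x) (h2 : σ y = v) (h3 : g v = v) (h4 : g y = x)
    (h5 : ∀ w, w ≠ v → w ≠ y → g w = σ w) :
    (∀ u w, σ.SameCycle u w) ↔ ∀ w, w ≠ v → g.SameCycle y w := by
  constructor
  · intro h w hw
    have hcl : ∀ w ∈ {w | g.SameCycle y w ∨ w = v}, σ w ∈ {w | g.SameCycle y w ∨ w = v} := by
      intro w hw
      by_cases hwy : w = y
      · subst hwy
        exact Or.inr h2
      · by_cases hwv : w = v
        · subst hwv
          left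
          rw [h1, ← h4]
          exact Perm.sameCycle_apply_right.2 (Perm.SameCycle.refl _ _)
        · rcases hw with hw | hw
          · left
            rw [← h5 w hwv hwy]
            exact Perm.sameCycle_apply_right.2 hw
          · exact absurd hw hwv
    have hmem := HPC_closed hcl (u := v) (Or.inr rfl) (h v w)
    rcases hmem with hmem | hmem
    · exact hmem
    · exact absurd hmem hw
  · intro h
    have hxv : x ≠ v := by
      intro hc
      apply hyv
      apply σ.injective
      rw [h2, h1, hc]
    have hcl : ∀ w ∈ {w | w ≠ v ∧ σ.SameCycle v w}, g w ∈ {w | w ≠ v ∧ σ.SameCycle v w} := by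
      rintro w ⟨hw1, hw2⟩
      by_cases hwy : w = y
      · subst hwy
        refine ⟨by rw [h4]; exact hxv, ?_⟩
        rw [h4, ← h1]
        exact Perm.sameCycle_apply_right.2 (Perm.SameCycle.refl _ _)
      · refine ⟨fun hc => hw1 (g.injective (hc.trans h3.symm)), ?_⟩
        rw [h5 w hw1 hwy]
        exact Perm.sameCycle_apply_right.2 hw2
    have hy : y ∈ {w | w ≠ v ∧ σ.SameCycle v w} := by
      refine ⟨hyv, Perm.SameCycle.symm ?_⟩
      have h6 := Perm.SameCycle.refl σ y
      have h7 := Perm.sameCycle_apply_right.2 h6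
      rwa [h2] at h7
    have hall : ∀ w, σ.SameCycle v w := by
      intro w
      by_cases hw : w = v
      · rw [hw]
      · exact (HPC_closed hcl hy (h w hw)).2
    exact fun u w => (hall u).symm.trans (hall w)

theorem HPC : HPC_stmt := by
  classical
  intro V _ _ H v hcard
  have key : ∀ x y : V, Nat.card {a : {σ : Perm V // (∀ w, H.Adj w (σ w)) ∧
      ∀ u w, σ.SameCycle u w} // (a.1 v, a.1⁻¹ v) = (x, y)} =
      if H.Adj v x ∧ H.Adj v y ∧ x ≠ y then Hp H v x y else 0 := by
    intro x y
    split_ifs with h
    · obtain ⟨hvx, hvy, hxy⟩ := h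
      have hxv : x ≠ v := hvx.ne'
      have hyv : y ≠ v := hvy.ne'
      unfold Hp
      refine Nat.card_congr ((Equiv.subtypeSubtypeEquivSubtypeInter
        (fun σ : Perm V => (∀ w, H.Adj w (σ w)) ∧ ∀ u w, σ.SameCycle u w)
        (fun σ : Perm V => (σ v, σ⁻¹ v) = (x, y))).trans
          ((Equiv.mulLeft (Equiv.swap v x)).subtypeEquiv fun σ => ?_))
      rw [Equiv.coe_mulLeft]
      constructor
      · rintro ⟨⟨hA, hC⟩, hf⟩
        rw [Prod.mk.injEq] at hf
        obtain ⟨h1, h2'⟩ := hf
        have h2 : σ y = v := by
          rw [← h2']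
          exact σ.apply_symm_apply v
        have g1 : (Equiv.swap v x * σ) v = v := by
          rw [Perm.mul_apply, h1, Equiv.swap_apply_right]
        have g2 : (Equiv.swap v x * σ) y = x := by
          rw [Perm.mul_apply, h2, Equiv.swap_apply_left]
        have g3 : ∀ w, w ≠ v → w ≠ y → (Equiv.swap v x * σ) w = σ w := by
          intro w hw1 hw2
          rw [Perm.mul_apply]
          exact Equiv.swap_apply_of_ne_of_ne (fun hc => hw2 (σ.injective (hc.trans h2.symm)))
            (fun hc => hw1 (σ.injective (hc.trans h1.symm)))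
        refine ⟨g1, g2, fun w hw1 hw2 => ?_, (HPC_cyc hyv h1 h2 g1 g2 g3).1 hC⟩
        rw [g3 w hw1 hw2]
        exact hA w
      · rintro ⟨g1, g2, hA, hC⟩
        have e : ∀ w, σ w = Equiv.swap v x ((Equiv.swap v x * σ) w) := by
          intro w
          rw [Perm.mul_apply, Equiv.swap_apply_self]
        have h1 : σ v = x := by
          rw [e v, g1, Equiv.swap_apply_left]
        have h2 : σ y = v := by
          rw [e y, g2, Equiv.swap_apply_right]
        have g3 : ∀ w, w ≠ v → w ≠ y → (Equiv.swap v x * σ) w = σ w := by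
          intro w hw1 hw2
          rw [Perm.mul_apply]
          exact Equiv.swap_apply_of_ne_of_ne (fun hc => hw2 (σ.injective (hc.trans h2.symm)))
            (fun hc => hw1 (σ.injective (hc.trans h1.symm)))
        refine ⟨⟨fun w => ?_, (HPC_cyc hyv h1 h2 g1 g2 g3).2 hC⟩, ?_⟩
        · by_cases hw1 : w = v
          · subst hw1
            rw [h1]
            exact hvx
          · by_cases hw2 : w = y
            · subst hw2
              rw [h2]
              exact hvy.symm
            · rw [← g3 w hw1 hw2]
              exact hA w hw1 hw2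
        · rw [Prod.mk.injEq]
          refine ⟨h1, ?_⟩
          rw [← h2]
          exact σ.symm_apply_apply y
    · rw [Nat.card_eq_zero]
      left
      refine ⟨fun a => h ?_⟩
      obtain ⟨⟨σ, hA, hC⟩, hf⟩ := a
      dsimp only at hf
      rw [Prod.mk.injEq] at hf
      obtain ⟨h1, h2'⟩ := hf
      have h2 : σ y = v := by
        rw [← h2']
        exact σ.apply_symm_apply v
      refine ⟨?_, ?_, ?_⟩
      · rw [← h1]
        exact hA v
      · have h3 := hA y
        rw [h2] at h3
        exact h3.symm
      · intro hxy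
        subst hxy
        have hcl : ∀ w ∈ ({v, x} : Set V), σ w ∈ ({v, x} : Set V) := by
          intro w hw
          rcases hw with hw | hw
          · rw [hw, h1]
            exact Or.inr rfl
          · rw [Set.mem_singleton_iff] at hw
            rw [hw, h2]
            exact Or.inl rfl
        have hsub : (Finset.univ : Finset V) ⊆ {v, x} := by
          intro w _
          have h4 := HPC_closed hcl (u := v) (Or.inl rfl) (hC v w)
          rw [Finset.mem_insert, Finset.mem_singleton]
          exact h4
        have h5 := Finset.card_le_card hsub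
        have h6 : ({v, x} : Finset V).card ≤ 2 := Finset.card_le_two
        rw [Finset.card_univ] at h5
        omega
  unfold Hc
  rw [Nat.card_congr (Equiv.sigmaFiberEquiv (fun a : {σ : Perm V // (∀ w, H.Adj w (σ w)) ∧
    ∀ u w, σ.SameCycle u w} => (a.1 v, a.1⁻¹ v))).symm, Nat.card_sigma, Fintype.sum_prod_type]
  refine Finset.sum_congr rfl fun x _ => Finset.sum_congr rfl fun y _ => ?_
  exact key x y

end Pool.Agent.IH
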